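import Mathlib
import Pool.Agent.Helper63.RC.Defs

/-! Module RC-12: basic facts on `mmRank` and `omega`. -/

set_option autoImplicit false

namespace Pool.Agent.Helper63.RC

open Matrix Module

namespace B12

/-- the matrix of a linear functional on matrices -/
noncomputable def mat {d : ℕ} (α : Matrix (Fin d) (Fin d) ℂ →ₗ[ℂ] ℂ) : Matrix (Fin d) (Fin d) ℂ :=
  Matrix.of fun j i => α (Matrix.single i j 1)

lemma trace_mat {d : ℕ} (α : Matrix (Fin d) (Fin d) ℂ →ₗ[ℂ] ℂ) (X : Matrix (Fin d) (Fin d) ℂ) :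
    (mat α * X).trace = α X := by
  have h1 : α X = ∑ i, ∑ j, X i j * α (Matrix.single i j 1) := by
    conv_lhs => rw [Matrix.matrix_eq_sum_single X]
    rw [map_sum]
    refine Finset.sum_congr rfl fun i _ => ?_
    rw [map_sum]
    refine Finset.sum_congr rfl fun j _ => ?_
    have : Matrix.single i j (X i j) = X i j • Matrix.single i j (1 : ℂ) := by
      rw [Matrix.smul_single, smul_eq_mul, mul_one]
    rw [this, map_smul, smul_eq_mul]
  rw [h1, Matrix.trace, Finset.sum_comm]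
  refine Finset.sum_congr rfl fun j _ => ?_
  rw [Matrix.diag_apply, Matrix.mul_apply]
  refine Finset.sum_congr rfl fun i _ => ?_
  rw [mat, Matrix.of_apply, mul_comm]

/-- the functional of a matrix -/
noncomputable def fn {d : ℕ} (A : Matrix (Fin d) (Fin d) ℂ) : Matrix (Fin d) (Fin d) ℂ →ₗ[ℂ] ℂ where
  toFun X := (A * X).trace
  map_add' X Y := by rw [mul_add, Matrix.trace_add]
  map_smul' r X := by rw [Matrix.mul_smul, Matrix.trace_smul]; rfl

lemma MMAlg_of {d R : ℕ} {κ : Type} [Fintype κ] (hκ : Fintype.card κ = R)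
    (α β γ : κ → Matrix (Fin d) (Fin d) ℂ)
    (h : ∀ X Y : Matrix (Fin d) (Fin d) ℂ,
      X * Y = ∑ k, ((α k * X).trace * (β k * Y).trace) • γ k) : MMAlg d R := by
  have e : Fin R ≃ κ := (Fintype.equivFinOfCardEq hκ).symm
  refine ⟨fun k => α (e k), fun k => β (e k), fun k => γ (e k), fun X Y => ?_⟩
  rw [h X Y]
  exact (Equiv.sum_comp e (fun k => ((α k * X).trace * (β k * Y).trace) • γ k)).symm

end B12

open B12

theorem rc12_DS_iff (d R : ℕ) : DS Unit (Fin d) (Fin d) (Fin d) R ↔ MMAlg d R := by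
  constructor
  · rintro ⟨α, β, γ, h⟩
    let J : Matrix (Fin d) (Fin d) ℂ →ₗ[ℂ] (Unit → Matrix (Fin d) (Fin d) ℂ) :=
      LinearMap.pi fun _ => LinearMap.id
    refine ⟨fun k => mat ((α k).comp J), fun k => mat ((β k).comp J), fun k => γ k (), ?_⟩
    intro X Y
    have h1 := congrFun (h (fun _ => X) (fun _ => Y)) ()
    simp only at h1
    rw [h1, Finset.sum_apply]
    refine Finset.sum_congr rfl fun k _ => ?_
    rw [trace_mat, trace_mat]
    rfl
  · rintro ⟨α, β, γ, h⟩
    refine ⟨fun k => (fn (α k)).comp (LinearMap.proj ()), fun k => (fn (β k)).comp (LinearMap.proj ()),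
      fun k _ => γ k, ?_⟩
    intro x y
    funext m
    rw [Finset.sum_apply]
    exact h (x m) (y m)

theorem rc12_alg_cube (d : ℕ) : MMAlg d (d ^ 3) := by
  refine MMAlg_of (κ := Fin d × Fin d × Fin d) (by
    rw [Fintype.card_prod, Fintype.card_prod, Fintype.card_fin]
    ring) (fun t => Matrix.single t.2.1 t.1 1) (fun t => Matrix.single t.2.2 t.2.1 1)
    (fun t => Matrix.single t.1 t.2.2 1) ?_
  intro X Y
  have htr : ∀ (i j : Fin d) (X : Matrix (Fin d) (Fin d) ℂ),
      (Matrix.single j i 1 * X).trace = X i j := by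
    intro i j X
    rw [Matrix.trace_mul_comm, Matrix.trace]
    simp only [Matrix.diag_apply, Matrix.mul_apply, Matrix.single_apply]
    rw [Finset.sum_eq_single i]
    · rw [Finset.sum_eq_single j]
      · simp
      · intro b _ hb
        rw [if_neg (fun h => hb h.1.symm), mul_zero]
      · intro h
        exact absurd (Finset.mem_univ _) h
    · intro b _ hb
      refine Finset.sum_eq_zero fun c _ => ?_
      rw [if_neg (fun h => hb h.2.symm), mul_zero]
    · intro h
      exact absurd (Finset.mem_univ _) h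
  ext i l
  rw [Matrix.mul_apply, Matrix.sum_apply]
  simp only [htr, Matrix.smul_apply, Matrix.single_apply, smul_eq_mul, mul_ite, mul_one, mul_zero]
  rw [Fintype.sum_prod_type]
  symm
  rw [Finset.sum_eq_single i]
  · rw [Fintype.sum_prod_type]
    refine Finset.sum_congr rfl fun j _ => ?_
    rw [Finset.sum_eq_single l]
    · simp
    · intro b _ hb
      rw [if_neg (fun h => hb h.2)]
    · intro h
      exact absurd (Finset.mem_univ _) h
  · intro b _ hb
    refine Finset.sum_eq_zero fun c _ => ?_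
    rw [if_neg (fun h => hb h.1)]
  · intro h
    exact absurd (Finset.mem_univ _) h

theorem rc12_sq_le (d R : ℕ) (h : MMAlg d R) : d ^ 2 ≤ R := by
  obtain ⟨α, β, γ, h⟩ := h
  let L : Matrix (Fin d) (Fin d) ℂ →ₗ[ℂ] (Fin R → ℂ) := LinearMap.pi fun k => fn (β k)
  have hL : Function.Injective L := by
    rw [← LinearMap.ker_eq_bot, LinearMap.ker_eq_bot']
    intro Y hY
    have h1 := h 1 Y
    rw [one_mul] at h1
    rw [h1]
    refine Finset.sum_eq_zero fun k _ => ?_
    have h2 : (β k * Y).trace = 0 := congrFun hY k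
    rw [h2, mul_zero, zero_smul]
  have h1 := LinearMap.finrank_le_finrank_of_injective hL
  rw [Module.finrank_matrix, Module.finrank_fintype_fun_eq_card, Module.finrank_self] at h1
  simp only [Fintype.card_fin, mul_one] at h1
  rw [sq]
  exact h1

namespace B12

lemma mmRank_mem (d : ℕ) : MMAlg d (mmRank d) := by
  have : {R | MMAlg d R}.Nonempty := ⟨d ^ 3, rc12_alg_cube d⟩
  exact Nat.sInf_mem this

lemma mmRank_le {d R : ℕ} (h : MMAlg d R) : mmRank d ≤ R := Nat.sInf_le h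

lemma sq_le_mmRank (d : ℕ) : d ^ 2 ≤ mmRank d := rc12_sq_le d _ (mmRank_mem d)

lemma three_mem : (3 : ℝ) ∈ {τ : ℝ | ∃ C : ℝ, ∀ d : ℕ, 1 ≤ d → (mmRank d : ℝ) ≤ C * (d : ℝ) ^ τ} := by
  refine ⟨1, fun d _ => ?_⟩
  rw [one_mul]
  have h := mmRank_le (rc12_alg_cube d)
  have h2 : (mmRank d : ℝ) ≤ (d : ℝ) ^ 3 := by exact_mod_cast h
  refine h2.trans (le_of_eq ?_)
  norm_cast

lemma two_le_of_mem {τ : ℝ}
    (h : τ ∈ {τ : ℝ | ∃ C : ℝ, ∀ d : ℕ, 1 ≤ d → (mmRank d : ℝ) ≤ C * (d : ℝ) ^ τ}) : 2 ≤ τ := by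
  obtain ⟨C, hC⟩ := h
  by_contra hlt
  push Not at hlt
  have h1 : Filter.Tendsto (fun d : ℕ => ((d : ℝ)) ^ (2 - τ)) Filter.atTop Filter.atTop :=
    (tendsto_rpow_atTop (by linarith)).comp tendsto_natCast_atTop_atTop
  obtain ⟨d, hd1, hd2⟩ := ((h1.eventually_gt_atTop C).and (Filter.eventually_ge_atTop 1)).exists
  have h2 := hC d hd2
  have h3 : ((d : ℝ)) ^ 2 ≤ mmRank d := by exact_mod_cast sq_le_mmRank d
  have hd0 : (0 : ℝ) < d := by exact_mod_cast hd2
  have h4 : (0 : ℝ) < (d : ℝ) ^ τ := Real.rpow_pos_of_pos hd0 _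
  have h5 : (d : ℝ) ^ (2 : ℝ) = (d : ℝ) ^ (2 - τ) * (d : ℝ) ^ τ := by
    rw [← Real.rpow_add hd0]
    congr 1
    ring
  have h6 : (d : ℝ) ^ (2 : ℝ) = (d : ℝ) ^ 2 := by norm_cast
  have h7 : C * (d : ℝ) ^ τ < (d : ℝ) ^ (2 - τ) * (d : ℝ) ^ τ := mul_lt_mul_of_pos_right hd1 h4
  rw [← h5, h6] at h7
  linarith

end B12

theorem rc12_two_le_omega : 2 ≤ omega := by
  unfold omega
  exact le_csInf ⟨3, three_mem⟩ fun τ hτ => two_le_of_mem hτ

theorem rc12_omega_le_three : omega ≤ 3 := by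
  unfold omega
  exact csInf_le ⟨2, fun τ hτ => two_le_of_mem hτ⟩ three_mem

end Pool.Agent.Helper63.RC
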