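import Mathlib
import Pool.Agent.Helper63.RC.Defs

/-! Modules RC-16 and RC-17. -/

set_option autoImplicit false

namespace Pool.Agent.Helper63.RC

open Matrix Module

/-! RC-16: the number of blocks is at most the number of conjugacy classes. -/

theorem rc16_blocks {G : Type} [Group G] [Fintype G] {ι : Type} [Fintype ι] (d : ι → ℕ)
    [∀ i, NeZero (d i)]
    (Φ : MonoidAlgebra ℂ G ≃ₐ[ℂ] Π i, Matrix (Fin (d i)) (Fin (d i)) ℂ) :
    Fintype.card ι ≤ Nat.card (ConjClasses G) := by
  classical
  -- the central elements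
  let Z : (ι → ℂ) →ₗ[ℂ] (Π i, Matrix (Fin (d i)) (Fin (d i)) ℂ) :=
    { toFun := fun t i => t i • (1 : Matrix (Fin (d i)) (Fin (d i)) ℂ)
      map_add' := fun s t => by
        funext i
        simp [add_smul]
      map_smul' := fun r t => by
        funext i
        simp [mul_smul] }
  have hZinj : Function.Injective Z := by
    intro s t h
    funext i
    have h1 := congrFun h i
    have h2 : s i • (1 : Matrix (Fin (d i)) (Fin (d i)) ℂ) = t i • 1 := h1
    have h3 := congrFun (congrFun h2 ⟨0, Nat.pos_of_ne_zero (NeZero.ne (d i))⟩)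
      ⟨0, Nat.pos_of_ne_zero (NeZero.ne (d i))⟩
    simpa using h3
  have hcen : ∀ t : ι → ℂ, ∀ w : MonoidAlgebra ℂ G, Φ.symm (Z t) * w = w * Φ.symm (Z t) := by
    intro t w
    apply Φ.injective
    rw [map_mul, map_mul, AlgEquiv.apply_symm_apply]
    funext i
    show (t i • (1 : Matrix (Fin (d i)) (Fin (d i)) ℂ)) * Φ w i =
      Φ w i * (t i • (1 : Matrix (Fin (d i)) (Fin (d i)) ℂ))
    rw [smul_mul_assoc, one_mul, mul_smul_comm, mul_one]
  have hconst : ∀ t : ι → ℂ, ∀ g x : G,
      (Φ.symm (Z t)).coeff (g * x * g⁻¹) = (Φ.symm (Z t)).coeff x := by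
    intro t g x
    have h := congrArg (fun f : MonoidAlgebra ℂ G => f.coeff (g * x))
      (hcen t (MonoidAlgebra.single g 1))
    rw [MonoidAlgebra.coeff_mul_single_eq_coeff_mul (g * x * g⁻¹) (by
        intro m' _
        rw [eq_mul_inv_iff_mul_eq]),
      MonoidAlgebra.coeff_single_mul_eq_mul_coeff x (by
        intro m' _
        exact mul_right_inj g), mul_one, one_mul] at h
    exact h
  let L : (ι → ℂ) →ₗ[ℂ] (ConjClasses G → ℂ) :=
    { toFun := fun t c => (Φ.symm (Z t)).coeff (Quotient.out c)
      map_add' := fun s t => by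
        funext c
        rw [map_add, map_add]
        rfl
      map_smul' := fun r t => by
        funext c
        rw [map_smul, map_smul]
        rfl }
  have hLinj : Function.Injective L := by
    rw [← LinearMap.ker_eq_bot, LinearMap.ker_eq_bot']
    intro t ht
    have h1 : Φ.symm (Z t) = 0 := by
      apply MonoidAlgebra.coeff_injective
      ext x
      have h2 := congrFun ht (ConjClasses.mk x)
      have h3 : IsConj (Quotient.out (ConjClasses.mk x)) x := by
        rw [← ConjClasses.mk_eq_mk_iff_isConj]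
        exact Quotient.out_eq _
      obtain ⟨g, hg⟩ := isConj_iff.1 h3
      rw [← hg, hconst]
      exact h2
    have h2 : Z t = 0 := by
      have := congrArg Φ h1
      rwa [AlgEquiv.apply_symm_apply, map_zero] at this
    apply hZinj
    rw [h2, map_zero]
  have hfin : Finite (ConjClasses G) := inferInstance
  have : Fintype (ConjClasses G) := Fintype.ofFinite _
  have h := LinearMap.finrank_le_finrank_of_injective hLinj
  rw [Module.finrank_fintype_fun_eq_card, Module.finrank_fintype_fun_eq_card,
    ← Nat.card_eq_fintype_card (α := ConjClasses G)] at h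
  exact h

/-! RC-17: the Heisenberg group modulo `N`. -/

/-- the Heisenberg group modulo `N` -/
@[ext] structure Heis (N : ℕ) where
  /-- first coordinate -/
  a : ZMod N
  /-- second coordinate -/
  b : ZMod N
  /-- central coordinate -/
  c : ZMod N

namespace Heis

variable {N : ℕ}

instance : Mul (Heis N) := ⟨fun g h => ⟨g.a + h.a, g.b + h.b, g.c + h.c + g.a * h.b⟩⟩
instance : One (Heis N) := ⟨⟨0, 0, 0⟩⟩
instance : Inv (Heis N) := ⟨fun g => ⟨-g.a, -g.b, -g.c + g.a * g.b⟩⟩

lemma mul_def (g h : Heis N) : g * h = ⟨g.a + h.a, g.b + h.b, g.c + h.c + g.a * h.b⟩ := rfl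
lemma one_def : (1 : Heis N) = ⟨0, 0, 0⟩ := rfl
lemma inv_def (g : Heis N) : g⁻¹ = ⟨-g.a, -g.b, -g.c + g.a * g.b⟩ := rfl

instance : Group (Heis N) :=
  Group.ofLeftAxioms
    (by
      intro g h k
      simp only [mul_def, Heis.mk.injEq]
      refine ⟨?_, ?_, ?_⟩ <;> ring)
    (by
      intro g
      ext <;> simp [mul_def, one_def])
    (by
      intro g
      ext <;> simp [mul_def, one_def, inv_def])

/-- the underlying set -/
def equiv : Heis N ≃ ZMod N × ZMod N × ZMod N where
  toFun g := (g.a, g.b, g.c)
  invFun t := ⟨t.1, t.2.1, t.2.2⟩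
  left_inv _ := rfl
  right_inv _ := rfl

end Heis

theorem rc17_heisenberg (N : ℕ) [NeZero N] :
    ∃ (G : Type) (_ : Group G) (_ : Fintype G), Fintype.card G = N ^ 3 ∧
      ∃ ψ : MonoidAlgebra ℂ G →ₐ[ℂ] Matrix (ZMod N) (ZMod N) ℂ, Function.Surjective ψ := by
  classical
  refine ⟨Heis N, inferInstance, Fintype.ofEquiv _ Heis.equiv.symm, ?_, ?_⟩
  · rw [Fintype.ofEquiv_card, Fintype.card_prod, Fintype.card_prod, ZMod.card]
    ring
  let e := ZMod.stdAddChar (N := N)
  let ρ : Heis N →* Matrix (ZMod N) (ZMod N) ℂ :=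
    { toFun := fun g => Matrix.of fun x y => if y = x + g.a then e (g.c + g.b * x) else 0
      map_one' := by
        ext x y
        simp only [Heis.one_def, Matrix.of_apply, Matrix.one_apply, add_zero, zero_mul,
          AddChar.map_zero_eq_one]
        by_cases h : x = y
        · rw [if_pos h, if_pos h.symm]
        · rw [if_neg h, if_neg (fun h' => h h'.symm)]
      map_mul' := by
        intro g h
        ext x z
        rw [Matrix.mul_apply]
        simp only [Heis.mul_def, Matrix.of_apply]
        have h1 : ∀ y : ZMod N, (if y = x + g.a then e (g.c + g.b * x) else 0) *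
            (if z = y + h.a then e (h.c + h.b * y) else 0) =
            if y = x + g.a then (if z = x + (g.a + h.a) then
              e (g.c + h.c + g.a * h.b + (g.b + h.b) * x) else 0) else 0 := by
          intro y
          by_cases hy : y = x + g.a
          · rw [if_pos hy, if_pos hy, hy]
            by_cases hz : z = x + (g.a + h.a)
            · rw [if_pos hz, if_pos (by rw [hz, add_assoc]), ← AddChar.map_add_eq_mul]
              congr 1
              ring
            · rw [if_neg hz, if_neg (fun h' => hz (by rw [h', add_assoc])), mul_zero]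
          · rw [if_neg hy, if_neg hy, zero_mul]
        rw [Finset.sum_congr rfl fun y _ => h1 y, Finset.sum_ite_eq' Finset.univ (x + g.a),
          if_pos (Finset.mem_univ _)] }
  refine ⟨MonoidAlgebra.lift ℂ _ (Heis N) ρ, ?_⟩
  set ψ := MonoidAlgebra.lift ℂ (Matrix (ZMod N) (ZMod N) ℂ) (Heis N) ρ with hψ
  have hρ : ∀ g, ψ (MonoidAlgebra.single g 1) = ρ g := by
    intro g
    rw [hψ, MonoidAlgebra.lift_single, one_smul]
  have hN : (N : ℂ) ≠ 0 := by
    exact_mod_cast NeZero.ne N
  -- matrix units
  have hE : ∀ x₀ y₀ : ZMod N, Matrix.single x₀ y₀ (1 : ℂ) ∈ LinearMap.range ψ.toLinearMap := by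
    intro x₀ y₀
    have h1 : Matrix.single x₀ y₀ (1 : ℂ) =
        ∑ b : ZMod N, ((N : ℂ)⁻¹ * e (-(b * x₀))) • ρ ⟨y₀ - x₀, b, 0⟩ := by
      ext x y
      rw [Matrix.sum_apply]
      have h2 : ∀ b : ZMod N, (((N : ℂ)⁻¹ * e (-(b * x₀))) • ρ ⟨y₀ - x₀, b, 0⟩) x y =
          if y = x + (y₀ - x₀) then (N : ℂ)⁻¹ * e (b * (x - x₀)) else 0 := by
        intro b
        rw [Matrix.smul_apply, smul_eq_mul]
        show ((N : ℂ)⁻¹ * e (-(b * x₀))) *
          (if y = x + (y₀ - x₀) then e (0 + b * x) else 0) = _
        split_ifs with h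
        · rw [mul_assoc, ← AddChar.map_add_eq_mul]
          congr 2
          ring
        · rw [mul_zero]
      rw [Finset.sum_congr rfl fun b _ => h2 b]
      by_cases hy : y = x + (y₀ - x₀)
      · simp only [if_pos hy]
        rw [← Finset.mul_sum, AddChar.sum_mulShift (x - x₀) (ZMod.isPrimitive_stdAddChar N)]
        by_cases hx : x = x₀
        · have hy' : y = y₀ := by rw [hy, hx]; ring
          rw [if_pos (sub_eq_zero.2 hx), hx, hy', Matrix.single_apply_same, ZMod.card]
          rw [inv_mul_cancel₀ hN]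
        · rw [if_neg (fun h => hx (sub_eq_zero.1 h)), Nat.cast_zero, mul_zero,
            Matrix.single_apply, if_neg (fun h => hx h.1.symm)]
      · simp only [if_neg hy]
        rw [Finset.sum_const_zero, Matrix.single_apply, if_neg]
        rintro ⟨h3, h4⟩
        apply hy
        rw [← h3, ← h4]
        ring
    rw [h1]
    refine Submodule.sum_mem _ fun b _ => Submodule.smul_mem _ _ ?_
    exact ⟨MonoidAlgebra.single ⟨y₀ - x₀, b, 0⟩ 1, hρ _⟩
  intro M
  have hM : M ∈ LinearMap.range ψ.toLinearMap := by
    rw [Matrix.matrix_eq_sum_single M]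
    refine Submodule.sum_mem _ fun i _ => Submodule.sum_mem _ fun j _ => ?_
    have : Matrix.single i j (M i j) = M i j • Matrix.single i j (1 : ℂ) := by
      rw [Matrix.smul_single, smul_eq_mul, mul_one]
    rw [this]
    exact Submodule.smul_mem _ _ (hE i j)
  exact hM

end Pool.Agent.Helper63.RC
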