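import Mathlib
import Pool.Agent.Helper63.RC.Calc
import Pool.Agent.Helper4.RC.Basic12

/-! Module RC-13: recursion. -/

set_option autoImplicit false

namespace Pool.Agent.Helper63.RC

open Matrix Module

namespace S13

/-- embeddings between finite types of the same size -/
lemma emb {α β : Type} [Fintype α] [Fintype β] (h : Fintype.card α ≤ Fintype.card β) :
    Nonempty (α ↪ β) := Function.Embedding.nonempty_of_card_le h

lemma refl_emb {α : Type} : Nonempty (α ↪ α) := ⟨Function.Embedding.refl α⟩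

/-- recursion -/
lemma pow_step {N R : ℕ} (h : MMAlg N R) (k : ℕ) : MMAlg (N ^ k) (R ^ k) := by
  induction k with
  | zero =>
    have := rc12_alg_cube 1
    simpa using this
  | succ k ih =>
    rw [← rc12_DS_iff] at h ih ⊢
    have h1 : DS (Fin R) (Fin (N ^ k)) (Fin (N ^ k)) (Fin (N ^ k)) (R * R ^ k) :=
      rc10_mono (rc10_copies ih R) (emb (by simp)) refl_emb refl_emb refl_emb le_rfl
    have h2 := rc11_comp h h1
    have hc : Fintype.card (Fin (N ^ (k + 1))) ≤ Fintype.card (Fin N × Fin (N ^ k)) := by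
      rw [Fintype.card_prod, Fintype.card_fin, Fintype.card_fin, Fintype.card_fin, pow_succ]
      exact le_of_eq (mul_comm _ _)
    exact rc10_mono h2 refl_emb (emb hc) (emb hc) (emb hc) (le_of_eq (by rw [pow_succ, mul_comm]))

lemma mono_alg {d N R : ℕ} (h : MMAlg N R) (hd : d ≤ N) : MMAlg d R := by
  rw [← rc12_DS_iff] at h ⊢
  have hc : Fintype.card (Fin d) ≤ Fintype.card (Fin N) := by simpa using hd
  exact rc10_mono h refl_emb (emb hc) (emb hc) (emb hc) le_rfl

end S13

open S13 B12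

/-- RC-13: `N ^ omega ≤ R` whenever `N × N` matrices can be multiplied with `R` products. -/
theorem rc13_pow_omega_le {N R : ℕ} (hN : 1 ≤ N) (h : MMAlg N R) : (N : ℝ) ^ omega ≤ R := by
  have hsq := rc12_sq_le N R h
  have hR1 : 1 ≤ R := le_trans (Nat.one_le_pow 2 N hN) hsq
  rcases Nat.eq_or_lt_of_le hN with h1 | h1
  · rw [← h1, Nat.cast_one, Real.one_rpow]
    exact_mod_cast hR1
  -- `N ≥ 2`
  have hNR : (1 : ℝ) < N := by exact_mod_cast h1
  have hN0 : (0 : ℝ) < N := by linarith
  have hR0 : (0 : ℝ) < R := by exact_mod_cast hR1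
  have hlogN : 0 < Real.log N := Real.log_pos hNR
  set τ := Real.log R / Real.log N with hτ
  have hNτ : (N : ℝ) ^ τ = R := by
    rw [Real.rpow_def_of_pos hN0, hτ, mul_div_cancel₀ _ hlogN.ne', Real.exp_log hR0]
  have hτ0 : 0 ≤ τ := div_nonneg (Real.log_nonneg (by exact_mod_cast hR1)) hlogN.le
  have hmem : τ ∈ {τ : ℝ | ∃ C : ℝ, ∀ d : ℕ, 1 ≤ d → (mmRank d : ℝ) ≤ C * (d : ℝ) ^ τ} := by
    refine ⟨R, fun d hd => ?_⟩
    have hd0 : (0 : ℝ) < d := by exact_mod_cast hd
    set k := Nat.clog N d with hk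
    have hdk : d ≤ N ^ k := Nat.le_pow_clog h1 d
    have hrank : mmRank d ≤ R ^ k := mmRank_le (mono_alg (pow_step h k) hdk)
    have hrank' : (mmRank d : ℝ) ≤ (R : ℝ) ^ k := by exact_mod_cast hrank
    refine hrank'.trans ?_
    rcases Nat.eq_zero_or_pos k with h0 | h0
    · rw [h0, pow_zero]
      have h2 : (1 : ℝ) ≤ (d : ℝ) ^ τ := Real.one_le_rpow (by exact_mod_cast hd) hτ0
      have h3 : (1 : ℝ) ≤ R := by exact_mod_cast hR1
      nlinarith
    · have hlt : N ^ (k - 1) < d := by
        have hk' : k - 1 < Nat.clog N d := by omega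
        by_contra hcon
        push Not at hcon
        have := Nat.clog_le_of_le_pow hcon
        omega
      have hle : ((N : ℝ)) ^ (k - 1) ≤ d := by exact_mod_cast hlt.le
      have h2 : (R : ℝ) ^ k = R * (R : ℝ) ^ (k - 1) := by
        rw [← pow_succ']
        congr 1
        omega
      rw [h2]
      refine mul_le_mul_of_nonneg_left ?_ hR0.le
      have h3 : (R : ℝ) ^ (k - 1) = (((N : ℝ)) ^ (k - 1)) ^ τ := by
        rw [← hNτ, ← Real.rpow_natCast, ← Real.rpow_mul hN0.le, ← Real.rpow_natCast,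
          ← Real.rpow_mul hN0.le, mul_comm]
      rw [h3]
      exact Real.rpow_le_rpow (by positivity) hle hτ0
  have hom : omega ≤ τ := by
    unfold omega
    exact csInf_le ⟨2, fun τ hτ => two_le_of_mem hτ⟩ hmem
  calc (N : ℝ) ^ omega ≤ (N : ℝ) ^ τ := Real.rpow_le_rpow_of_exponent_le hNR.le hom
    _ = R := hNτ

end Pool.Agent.Helper63.RC
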