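import Mathlib
import Pool.Agent.Helper4.RC.Pow13

/-! Module RC-14: the inequality of Schoenhage for equal blocks. -/

set_option autoImplicit false

namespace Pool.Agent.Helper63.RC

open Matrix Module

open S13 B12

namespace S13

/-- recursion for several blocks: with `R ≤ K * M`, `M` the number of blocks -/
lemma multi_step {ι : Type} [Fintype ι] {D R K : ℕ} (h : DS ι (Fin D) (Fin D) (Fin D) R)
    (hK : R ≤ K * Fintype.card ι) (k : ℕ) :
    DS ι (Fin (D ^ (k + 1))) (Fin (D ^ (k + 1))) (Fin (D ^ (k + 1))) (R * K ^ k) := by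
  induction k with
  | zero =>
    have hc : Fintype.card (Fin (D ^ (0 + 1))) ≤ Fintype.card (Fin D) := by simp
    exact rc10_mono h refl_emb (emb hc) (emb hc) (emb hc) (by simp)
  | succ k ih =>
    have h1 : DS (Fin R) (Fin (D ^ (k + 1))) (Fin (D ^ (k + 1))) (Fin (D ^ (k + 1)))
        (K * (R * K ^ k)) :=
      rc10_mono (rc10_copies ih K) (emb (by simpa using hK)) refl_emb refl_emb refl_emb le_rfl
    have h2 := rc11_comp h h1
    have hc : Fintype.card (Fin (D ^ (k + 1 + 1))) ≤ Fintype.card (Fin D × Fin (D ^ (k + 1))) := by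
      rw [Fintype.card_prod, Fintype.card_fin, Fintype.card_fin, Fintype.card_fin,
        pow_succ D (k + 1)]
      exact le_of_eq (mul_comm _ _)
    exact rc10_mono h2 refl_emb (emb hc) (emb hc) (emb hc) (le_of_eq (by rw [pow_succ]; ring))

end S13

/-- RC-14: Schoenhage's inequality for equal blocks, up to the factor 2. -/
theorem rc14_schoenhage {ι : Type} [Fintype ι] {D R : ℕ} (hD : 2 ≤ D)
    (h : DS ι (Fin D) (Fin D) (Fin D) R) : (Fintype.card ι : ℝ) * (D : ℝ) ^ omega ≤ 2 * R := by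
  classical
  rcases Nat.eq_zero_or_pos (Fintype.card ι) with h0 | h0
  · rw [h0, Nat.cast_zero, zero_mul]
    positivity
  obtain ⟨i⟩ : Nonempty ι := Fintype.card_pos_iff.1 h0
  set M := Fintype.card ι with hM
  set K := (R + M - 1) / M with hK
  have hKM : R ≤ K * M := by
    have h1 := Nat.div_add_mod (R + M - 1) M
    have h2 := Nat.mod_lt (R + M - 1) h0
    rw [← hK, mul_comm] at h1
    omega
  have hKM2 : K * M ≤ R + M := by
    have h1 := Nat.div_mul_le_self (R + M - 1) M
    rw [← hK] at h1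
    omega
  have hD0 : (0 : ℝ) < D := by
    have : 0 < D := by omega
    exact_mod_cast this
  have hx0 : (0 : ℝ) < (D : ℝ) ^ omega := Real.rpow_pos_of_pos hD0 _
  -- all powers
  have hall : ∀ k : ℕ, ((D : ℝ) ^ omega) ^ (k + 1) ≤ R * (K : ℝ) ^ k := by
    intro k
    have h1 := multi_step h hKM k
    have h2 : DS Unit (Fin (D ^ (k + 1))) (Fin (D ^ (k + 1))) (Fin (D ^ (k + 1))) (R * K ^ k) :=
      rc10_mono h1 ⟨⟨fun _ => i, fun _ _ _ => rfl⟩⟩ refl_emb refl_emb refl_emb le_rfl
    rw [rc12_DS_iff] at h2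
    have h3 := rc13_pow_omega_le (Nat.one_le_pow _ _ (by omega)) h2
    push_cast at h3
    rwa [← Real.rpow_natCast, ← Real.rpow_mul hD0.le, mul_comm, Real.rpow_mul hD0.le,
      Real.rpow_natCast]  at h3
  -- hence `D ^ omega ≤ K`
  have hxK : (D : ℝ) ^ omega ≤ K := by
    by_contra hlt
    push Not at hlt
    have hK0 : (0 : ℝ) ≤ K := Nat.cast_nonneg K
    rcases Nat.eq_zero_or_pos K with hz | hz
    · have h1 := hall 1
      rw [hz] at h1
      simp only [Nat.cast_zero, pow_one, mul_zero] at h1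
      have : 0 < ((D : ℝ) ^ omega) ^ (1 + 1) := by positivity
      linarith
    · have hKpos : (0 : ℝ) < K := by exact_mod_cast hz
      have hq : 1 < (D : ℝ) ^ omega / K := (one_lt_div hKpos).2 hlt
      obtain ⟨k, hk⟩ := pow_unbounded_of_one_lt (R : ℝ) hq
      have h1 := hall k
      have h2 : ((D : ℝ) ^ omega / K) ^ k * (K : ℝ) ^ k = ((D : ℝ) ^ omega) ^ k := by
        rw [div_pow, div_mul_cancel₀ _ (pow_pos hKpos k).ne']
      have h3 : R * (K : ℝ) ^ k < ((D : ℝ) ^ omega) ^ k := by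
        rw [← h2]
        exact mul_lt_mul_of_pos_right hk (pow_pos hKpos k)
      have h4 : (1 : ℝ) ≤ (D : ℝ) ^ omega := by
        have h5 : (1 : ℝ) ≤ K := by exact_mod_cast hz
        linarith
      have h5 : ((D : ℝ) ^ omega) ^ k ≤ ((D : ℝ) ^ omega) ^ (k + 1) :=
        pow_le_pow_right₀ h4 (Nat.le_succ k)
      linarith
  have hM0 : (0 : ℝ) < M := by exact_mod_cast h0
  have h4 : (2 : ℝ) * 2 ≤ (D : ℝ) ^ omega := by
    have hD2 : (2 : ℝ) ≤ D := by exact_mod_cast hD
    calc (2 : ℝ) * 2 = 2 ^ (2 : ℝ) := by norm_num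
      _ ≤ (D : ℝ) ^ (2 : ℝ) := Real.rpow_le_rpow (by norm_num) hD2 (by norm_num)
      _ ≤ (D : ℝ) ^ omega := Real.rpow_le_rpow_of_exponent_le (by linarith) rc12_two_le_omega
  have h5 : (K : ℝ) * M ≤ R + M := by exact_mod_cast hKM2
  have h6 : (M : ℝ) * (D : ℝ) ^ omega ≤ R + M := by
    have := mul_le_mul_of_nonneg_right hxK hM0.le
    linarith
  nlinarith

end Pool.Agent.Helper63.RC
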